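import Pool.Agent.Q163.TB.RankFour

set_option autoImplicit false

/-!
A minimal `1`-block over `GF(7)` of rank five with twenty-six points that has a modular copoint
but is not tangential. The seven points with first coordinate `1` lie over the seven elements of
the field; the other nineteen points are the directions of the lines joining them and form the
modular copoint. The line through the points `(0,1,0,0,0)` and `(0,0,1,0,0)` has no tangent.
-/

namespace Pool.Agent.Results.MP_7230e4_co.MinimalNotTangential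

open Pool.Agent.Helper236 Pool.Agent.Q163.TB Set Module

/-- The critical exponent `c(M; q)`: the least `j ≥ 0` such that the characteristic polynomial of
`M` does not vanish at `q ^ j` (and `∞` if there is none). -/
noncomputable def critE {α : Type} (M : Matroid α) (q : ℕ) : ℕ∞ :=
  ⨅ j ∈ {j : ℕ | (charPoly M).eval ((q : ℤ) ^ j) ≠ 0}, (j : ℕ∞)

/-- `M` is a `k`-block over the finite field `F`: it is finite, simple and representable over `F`
and its critical exponent is larger than `k`. -/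
def IsBlock (F : Type) [Field F] (k : ℕ) {α : Type} (M : Matroid α) : Prop :=
  M.Finite ∧ IsSimple M ∧ Representable F M ∧ (k : ℕ∞) < critE M (Nat.card F)

/-- `M` is a minimal `k`-block over `F`: deleting any point lowers the critical exponent to at
most `k`. -/
def IsMinimalBlock (F : Type) [Field F] (k : ℕ) {α : Type} (M : Matroid α) : Prop :=
  IsBlock F k M ∧ ∀ x ∈ M.E, critE (M.delete {x}) (Nat.card F) ≤ k

/-- The vectors `v e` in `F ^ n` represent `M` and span `F ^ n`. -/
def IsRepresentation (F : Type) [Field F] {α : Type} (M : Matroid α) {n : ℕ}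
    (v : α → (Fin n → F)) : Prop :=
  (∀ I ⊆ M.E, M.Indep I ↔ LinearIndepOn F v I) ∧ Submodule.span F (v '' M.E) = ⊤

/-- The set `Y` of points of `M` has a tangent of codimension `k`: a subspace of `F ^ n` of
dimension `n - k` that contains exactly the points of `Y`. -/
def HasTangent (F : Type) [Field F] (k : ℕ) {α : Type} (M : Matroid α) {n : ℕ}
    (v : α → (Fin n → F)) (Y : Set α) : Prop :=
  ∃ U : Submodule F (Fin n → F), finrank F U + k = n ∧ ∀ x ∈ M.E, v x ∈ U ↔ x ∈ Y

/-- `M` is a tangential `k`-block over `F`: it is a `k`-block and in some representation every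
nonempty flat of rank at most `n - k` has a tangent of codimension `k`. -/
def IsTangentialBlock (F : Type) [Field F] (k : ℕ) {α : Type} (M : Matroid α) : Prop :=
  IsBlock F k M ∧ ∃ (n : ℕ) (v : α → (Fin n → F)), IsRepresentation F M v ∧
    ∀ Y, M.IsFlat Y → Y.Nonempty → rk M Y + k ≤ n → HasTangent F k M v Y

/-- twenty-six points of the projective space of dimension four over `GF(7)` -/
def tab : List (List ℕ) :=
  [[1, 0, 0, 0, 0], [1, 0, 0, 1, 0], [1, 2, 6, 4, 4], [1, 0, 0, 0, 3], [1, 4, 0, 0, 0],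
   [1, 0, 6, 6, 0], [1, 0, 0, 6, 0], [0, 1, 0, 0, 0], [0, 0, 1, 0, 0], [0, 0, 0, 0, 1],
   [0, 0, 0, 1, 0], [0, 0, 0, 1, 3], [0, 0, 0, 1, 4], [0, 0, 1, 1, 0], [0, 0, 1, 1, 3],
   [0, 0, 1, 2, 0], [0, 1, 0, 0, 1], [0, 1, 0, 2, 0], [0, 1, 0, 5, 0], [0, 1, 0, 6, 2],
   [0, 1, 2, 2, 0], [0, 1, 3, 2, 2], [0, 1, 3, 2, 4], [0, 1, 3, 5, 2], [0, 1, 3, 6, 2],
   [0, 1, 4, 5, 5]]

/-- tangents at the points -/
def T1 : List (List ℕ) :=
  [[0, 1, 1, 1, 1], [1, 1, 5, 6, 3], [1, 2, 2, 2, 6], [1, 2, 2, 2, 2], [1, 5, 2, 3, 4],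
   [1, 1, 6, 2, 1], [1, 1, 1, 1, 1], [1, 0, 2, 4, 3], [1, 4, 0, 3, 4], [1, 1, 2, 2, 0],
   [1, 1, 5, 0, 1], [1, 2, 5, 5, 3], [1, 3, 2, 4, 6], [1, 2, 5, 2, 1], [1, 2, 2, 3, 3],
   [1, 1, 4, 5, 1], [1, 1, 1, 5, 6], [1, 3, 2, 2, 5], [1, 6, 3, 3, 3], [1, 2, 2, 3, 4],
   [1, 3, 5, 4, 3], [1, 1, 2, 2, 5], [1, 1, 4, 2, 1], [1, 3, 2, 4, 3], [1, 2, 5, 5, 1],
   [1, 1, 1, 5, 1]]

theorem tab_nodup : tab.Nodup := by decide +kernel
theorem tab_len : chkLen 5 tab = true := by decide +kernel
theorem tab_simple : chkSimple 5 tab = true := by decide +kernel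
theorem tab_dirs : chkDirs 5 tab = true := by decide +kernel
theorem tab_T1 : chkT1 tab T1 = true := by decide +kernel

/-- every functional that vanishes at the two special points vanishes at a point that is not on
the line joining them -/
theorem tab_line : ((List.range 7).all fun a => (List.range 7).all fun b =>
    (List.range 7).all fun c => tab.any fun z =>
      (a * z.getD 0 0 + b * z.getD 3 0 + c * z.getD 4 0) % 7 == 0 &&
      (z.getD 0 0 % 7 != 0 || z.getD 3 0 % 7 != 0 || z.getD 4 0 % 7 != 0)) = true := by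
  decide +kernel

theorem critE_eq {F : Type} [Field F] [Finite F] {W : Type} [AddCommGroup W] [Module F W]
    [FiniteDimensional F W] {α : Type} {M : Matroid α} [M.Finite] {v : α → W}
    (h : Rep F M v) : critE M (Nat.card F) = critExp M (Nat.card F) := by
  have hset : {j : ℕ | (charPoly M).eval ((Nat.card F : ℤ) ^ j) ≠ 0} =
      {j : ℕ | 0 < (charPoly M).eval ((Nat.card F : ℤ) ^ j)} := by
    ext j
    refine ⟨fun hj => lt_of_le_of_ne ?_ (Ne.symm hj), fun hj => ne_of_gt hj⟩
    have h1 := crapo_rota h j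
    have hq : (0 : ℤ) < (Nat.card F : ℤ) ^ (j * (finrank F W - rk M M.E)) := by
      have : 0 < Nat.card F := Nat.card_pos
      positivity
    by_contra hneg
    push Not at hneg
    have h2 := mul_neg_of_pos_of_neg hq hneg
    rw [← h1] at h2
    omega
  rw [critE, critExp, hset]

theorem rank_five : rk (Mat 5 tab) (Mat 5 tab).E ≤ 5 := by
  have := Mat_finite 5 tab
  rw [(Mat_rep 5 tab).rk_eq Set.Subset.rfl]
  refine (Submodule.finrank_le _).trans ?_
  rw [Module.finrank_fin_fun]

/-- first special point -/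
def i₀ : Fin tab.length := ⟨7, by decide⟩
/-- second special point -/
def j₀ : Fin tab.length := ⟨8, by decide⟩

/-- the line without tangent -/
noncomputable def Y₀ : Set (Fin tab.length) := (Mat 5 tab).closure {i₀, j₀}

/-- a general functional that vanishes at the two special points -/
theorem kills (f : (Fin 5 → ZMod 7) →ₗ[ZMod 7] ZMod 7) (h0 : f (pt 5 tab i₀) = 0)
    (h1 : f (pt 5 tab j₀) = 0) : ∃ z, z ∉ Y₀ ∧ f (pt 5 tab z) = 0 := by
  have hfin := Mat_finite 5 tab
  have e0 : pt 5 tab i₀ = Pi.single 1 1 := by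
    ext k
    fin_cases k <;> rfl
  have e1 : pt 5 tab j₀ = Pi.single 2 1 := by
    ext k
    fin_cases k <;> rfl
  rw [e0] at h0
  rw [e1] at h1
  have h := tab_line
  rw [List.all_eq_true] at h
  have ha := h _ (List.mem_range.2 (ZMod.val_lt (f (Pi.single 0 1))))
  rw [List.all_eq_true] at ha
  have hb := ha _ (List.mem_range.2 (ZMod.val_lt (f (Pi.single 3 1))))
  rw [List.all_eq_true] at hb
  have hc := hb _ (List.mem_range.2 (ZMod.val_lt (f (Pi.single 4 1))))
  rw [List.any_eq_true] at hc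
  obtain ⟨z, hz, hz2⟩ := hc
  obtain ⟨i, rfl⟩ := List.get_of_mem hz
  rw [Bool.and_eq_true, beq_iff_eq] at hz2
  refine ⟨i, ?_, ?_⟩
  · intro hi
    rw [Y₀, (Mat_rep 5 tab).mem_closure_iff (Set.subset_univ _) (Set.mem_univ _),
      Set.image_pair, e0, e1, Submodule.mem_span_pair] at hi
    obtain ⟨a, b, hab⟩ := hi
    have hz3 := hz2.2
    simp only [Bool.or_eq_true, bne_iff_ne] at hz3
    have key : ∀ k : Fin 5, k ≠ 1 → k ≠ 2 → (tab.get i).getD k 0 % 7 = 0 := by
      intro k hk1 hk2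
      have h5 := congrFun hab k
      have h6 : (0 : ZMod 7) = (((tab.get i).getD k 0 : ℕ) : ZMod 7) := by
        rw [← show pt 5 tab i k = (((tab.get i).getD k 0 : ℕ) : ZMod 7) from rfl, ← h5]
        simp [hk1, hk2]
      exact Nat.mod_eq_zero_of_dvd ((ZMod.natCast_eq_zero_iff _ _).1 h6.symm)
    rcases hz3 with (h7 | h7) | h7
    · exact h7 (key 0 (by decide) (by decide))
    · exact h7 (key 3 (by decide) (by decide))
    · exact h7 (key 4 (by decide) (by decide))
  · have hx : pt 5 tab i = pt 5 tab i 0 • Pi.single 0 1 + pt 5 tab i 1 • Pi.single 1 1 +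
        pt 5 tab i 2 • Pi.single 2 1 + pt 5 tab i 3 • Pi.single 3 1 +
        pt 5 tab i 4 • Pi.single 4 1 := by
      ext k
      fin_cases k <;> simp
    rw [hx]
    simp only [map_add, map_smul, smul_eq_mul, h0, h1, mul_zero, add_zero]
    have h8 := (ZMod.natCast_eq_zero_iff _ 7).2 (Nat.dvd_of_mod_eq_zero hz2.1)
    push_cast at h8
    rw [ZMod.natCast_zmod_val, ZMod.natCast_zmod_val, ZMod.natCast_zmod_val] at h8
    rw [← h8]
    have h9 : pt 5 tab i 0 = (((tab.get i).getD 0 0 : ℕ) : ZMod 7) := rfl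
    have h10 : pt 5 tab i 3 = (((tab.get i).getD 3 0 : ℕ) : ZMod 7) := rfl
    have h11 : pt 5 tab i 4 = (((tab.get i).getD 4 0 : ℕ) : ZMod 7) := rfl
    rw [h9, h10, h11]
    ring

theorem Y₀_flat : (Mat 5 tab).IsFlat Y₀ := (Mat 5 tab).isFlat_closure _

theorem i₀_mem : i₀ ∈ Y₀ := (Mat 5 tab).mem_closure_of_mem' (by simp) (Set.mem_univ _)
theorem j₀_mem : j₀ ∈ Y₀ := (Mat 5 tab).mem_closure_of_mem' (by simp) (Set.mem_univ _)

theorem Y₀_rk : rk (Mat 5 tab) Y₀ = 2 := by
  have hfin := Mat_finite 5 tab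
  rw [rk, Y₀, Matroid.eRk_closure_eq]
  exact rk_pair (Mat_simple tab_simple tab_nodup) (Set.mem_univ _) (Set.mem_univ _) (by decide)

/-- the contraction of the special line is a `1`-block -/
theorem contract_block : ((1 : ℕ) : ℕ∞) < critExp ((Mat 5 tab).contract Y₀)
    (Nat.card (ZMod 7)) := by
  have hfin := Mat_finite 5 tab
  rw [← not_le]
  intro hle
  rw [← Matroid.delete_empty ((Mat 5 tab).contract Y₀),
    minor_critExp_le_iff (Mat_rep 5 tab) 1 Y₀ ∅ Y₀_flat.subset_ground] at hle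
  obtain ⟨f, hf1, hf2⟩ := hle
  obtain ⟨z, hz, hz2⟩ := kills ((LinearMap.proj 0).comp f)
    (by rw [LinearMap.comp_apply, hf1 _ i₀_mem]; simp)
    (by rw [LinearMap.comp_apply, hf1 _ j₀_mem]; simp)
  apply hf2 z ⟨⟨Set.mem_univ _, hz⟩, Set.notMem_empty _⟩
  ext k
  rw [Subsingleton.elim k 0]
  exact hz2

/-- There is a minimal `1`-block over `GF(7)` that has a modular copoint and is not tangential. -/
theorem result : ∃ (F : Type) (_ : Field F) (_ : Finite F) (k : ℕ) (α : Type) (M : Matroid α),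
    1 ≤ k ∧ IsMinimalBlock F k M ∧ (∃ H, IsModularHyperplane M H) ∧ ¬ IsTangentialBlock F k M ∧
      ∃ Y, M.IsFlat Y ∧ Y.Nonempty ∧ (k : ℕ∞) < critE (M.contract Y) (Nat.card F) := by
  have hfin := Mat_finite 5 tab
  have hs := Mat_simple tab_simple tab_nodup
  have hrep := Mat_rep 5 tab
  have hc : ∀ C D, C ⊆ (Mat 5 tab).E →
      critE (((Mat 5 tab).contract C).delete D) (Nat.card (ZMod 7)) =
        critExp (((Mat 5 tab).contract C).delete D) (Nat.card (ZMod 7)) := by
    intro C D hC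
    exact critE_eq (hrep.minor C D hC)
  have hY : ((1 : ℕ) : ℕ∞) < critE ((Mat 5 tab).contract Y₀) (Nat.card (ZMod 7)) := by
    have := hc Y₀ ∅ Y₀_flat.subset_ground
    rw [Matroid.delete_empty] at this
    rw [this]
    exact contract_block
  refine ⟨ZMod 7, inferInstance, inferInstance, 1, Fin tab.length, Mat 5 tab, le_refl 1,
    ⟨⟨hfin, hs, ⟨5, pt 5 tab, hrep⟩, ?_⟩, ?_⟩, modular_hyp tab_len (by decide) tab_dirs, ?_,
    Y₀, Y₀_flat, ⟨i₀, i₀_mem⟩, hY⟩
  · rw [critE_eq hrep]
    exact Mat_critExp_gt (by decide) tab_dirs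
  · intro x hx
    have h1 := hc ∅ {x} (Set.empty_subset _)
    rw [Matroid.contract_empty] at h1
    rw [h1]
    have h2 := minor_critExp_le_iff hrep 1 ∅ {x} (Set.empty_subset _)
    rw [Matroid.contract_empty] at h2
    rw [h2]
    obtain ⟨f, hf1, hf2⟩ := tangent_point tab_len tab_nodup tab_T1 x hx
    refine ⟨LinearMap.pi (fun _ => f), by simp, ?_⟩
    intro e he h0
    have h3 := congrFun h0 0
    exact hf2 e (Set.mem_univ _) (fun h => he.2 h) h3
  · rintro ⟨-, n, v, ⟨hv, hsp⟩, hT⟩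
    have hrep' : Rep (ZMod 7) (Mat 5 tab) v := hv
    have hn : n = rk (Mat 5 tab) (Mat 5 tab).E := by
      rw [hrep'.rk_eq Set.Subset.rfl, hsp, finrank_top, Module.finrank_fin_fun]
    have h3 : rk (Mat 5 tab) Y₀ < rk (Mat 5 tab) (Mat 5 tab).E := by
      refine rk_lt_of_flat hrep Y₀_flat Set.Subset.rfl Y₀_flat.subset_ground ?_
      intro heq
      obtain ⟨z, hz, -⟩ := kills 0 (by simp) (by simp)
      rw [heq] at hz
      exact hz (Set.mem_univ _)
    obtain ⟨U, hU, hU2⟩ := hT Y₀ Y₀_flat ⟨i₀, i₀_mem⟩ (by omega)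
    rw [← not_le] at hY
    apply hY
    have h4 := hc Y₀ ∅ Y₀_flat.subset_ground
    rw [Matroid.delete_empty] at h4
    rw [h4]
    have h5 := minor_critExp_le_iff hrep' 1 Y₀ ∅ Y₀_flat.subset_ground
    rw [Matroid.delete_empty] at h5
    rw [h5]
    have h6 : finrank (ZMod 7) ((Fin n → ZMod 7) ⧸ U) = finrank (ZMod 7) (Fin 1 → ZMod 7) := by
      rw [Submodule.finrank_quotient, Module.finrank_fin_fun, Module.finrank_fin_fun]
      omega
    let e := LinearEquiv.ofFinrankEq _ _ h6
    refine ⟨e.toLinearMap.comp U.mkQ, ?_, ?_⟩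
    · intro c hcY
      have h7 : U.mkQ (v c) = 0 := by
        simpa using (hU2 c (Set.mem_univ _)).2 hcY
      rw [LinearMap.comp_apply, h7, map_zero]
    · intro x hx h0
      rw [LinearMap.comp_apply] at h0
      have h8 : U.mkQ (v x) = 0 := by
        apply e.injective
        rw [map_zero]
        exact h0
      have h9 : v x ∈ U := by simpa using h8
      exact hx.2 ((hU2 x (Set.mem_univ _)).1 h9)

end Pool.Agent.Results.MP_7230e4_co.MinimalNotTangential
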